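import Pool.Agent.Y309.HS.Ball

set_option autoImplicit false
open MeasureTheory Filter Topology Set
open scoped ENNReal NNReal

namespace Pool.Agent.Y309.HS

lemma tsupport_dil_sub {φ : E3 → ℝ} {K : Set E3} (hK : tsupport φ ⊆ K) {μ : ℝ} (hμ : 1 ≤ μ)
    (hstar : ∀ x, μ ^ 2 • x ∈ K → x ∈ K) : tsupport (DD μ φ) ⊆ K := by
  have h1 : tsupport (fun y : E3 => μ * φ (μ ^ 2 • y)) ⊆ K := by
    intro x hx
    apply hstar
    apply hK
    have hcl : IsClosed {x : E3 | μ ^ 2 • x ∈ tsupport φ} :=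
      (isClosed_tsupport φ).preimage (continuous_const_smul (μ ^ 2))
    have hsub : Function.support (fun y : E3 => μ * φ (μ ^ 2 • y)) ⊆
        {x : E3 | μ ^ 2 • x ∈ tsupport φ} := by
      intro y hy
      rw [Function.mem_support] at hy
      exact subset_tsupport φ (right_ne_zero_of_mul hy)
    exact closure_minimal hsub hcl hx
  have h2 : tsupport (DD μ φ) ⊆ tsupport φ ∪ tsupport (fun y : E3 => μ * φ (μ ^ 2 • y)) := by
    refine closure_minimal ?_ ((isClosed_tsupport _).union (isClosed_tsupport _))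
    intro x hx
    rw [Function.mem_support] at hx
    by_contra hcon
    rw [mem_union, not_or] at hcon
    apply hx
    have h3 := image_eq_zero_of_notMem_tsupport hcon.1
    have h4 := image_eq_zero_of_notMem_tsupport hcon.2
    simp only [DD]
    rw [h3, h4, sub_zero]
  exact h2.trans (union_subset hK h1)

theorem no_solution :
    ¬ (∃ u : EuclideanSpace ℝ (Fin 3) → ℝ,
  ∃ G : EuclideanSpace ℝ (Fin 3) → EuclideanSpace ℝ (Fin 3),
    MemLp u 2 volume ∧ MemLp G 2 volume ∧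
    (∃ φ : ℕ → EuclideanSpace ℝ (Fin 3) → ℝ,
        (∀ n, ContDiff ℝ ((⊤ : ℕ∞) : WithTop ℕ∞) (φ n) ∧
              HasCompactSupport (φ n) ∧ tsupport (φ n) ⊆ Om) ∧
        Tendsto (fun n => eLpNorm (fun x => φ n x - u x) 2 volume) atTop (𝓝 0) ∧
        Tendsto (fun n => eLpNorm (fun x => gradient (φ n) x - G x) 2 volume)
          atTop (𝓝 0)) ∧
    (∀ᵐ x ∂(volume : Measure (EuclideanSpace ℝ (Fin 3))), x ∈ Om → 0 < u x) ∧
    ∀ ψ : EuclideanSpace ℝ (Fin 3) → ℝ,
      ContDiff ℝ ((⊤ : ℕ∞) : WithTop ℕ∞) ψ → HasCompactSupport ψ → tsupport ψ ⊆ Om →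
        Integrable (fun x => inner ℝ (G x) (gradient ψ x)) volume ∧
        Integrable (fun x => u x ^ (4 : ℝ) * ψ x) volume ∧
        Integrable (fun x => u x ^ (2 * (((3 : ℕ) : ℝ) - 1) / (((3 : ℕ) : ℝ) - 2) - 1) * ψ x /
          ‖x‖ ^ (1 : ℝ)) volume ∧
        ∫ x, (inner ℝ (G x) (gradient ψ x) + u x ^ (4 : ℝ) * ψ x
              - u x ^ (2 * (((3 : ℕ) : ℝ) - 1) / (((3 : ℕ) : ℝ) - 2) - 1) * ψ x /
                ‖x‖ ^ (1 : ℝ)) = 0) := by
  rintro ⟨u, G, hu, hG, ⟨φ, hφ, lim1, lim2⟩, hpos, weak⟩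
  obtain ⟨C, hC⟩ := sobolev
  have hS : Sob C := hC
  -- `u = 0` outside
  have hφm : ∀ n, AEStronglyMeasurable (φ n) volume := fun n =>
    (hφ n).1.continuous.aestronglyMeasurable
  have hmeas : TendstoInMeasure volume φ atTop u :=
    tendstoInMeasure_of_tendsto_eLpNorm (p := 2) two_ne_zero hφm hu.1 lim1
  obtain ⟨ns, hns, hae⟩ := hmeas.exists_seq_tendsto_ae
  have hout : ∀ᵐ x ∂(volume : Measure E3), x ∉ Om → u x = 0 := by
    filter_upwards [hae] with x hx hxO
    have h1 : ∀ n, φ n x = 0 := fun n =>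
      image_eq_zero_of_notMem_tsupport fun h => hxO ((hφ n).2.2 h)
    simp only [h1] at hx
    exact tendsto_nhds_unique hx tendsto_const_nhds
  set v : E3 → ℝ := fun x => max (u x) 0 with hv
  have huv : u =ᵐ[volume] v := by
    filter_upwards [hout, hpos] with x h1 h2
    by_cases hx : x ∈ Om
    · simp only [hv]
      rw [max_eq_left (h2 hx).le]
    · simp only [hv]
      rw [h1 hx]; simp
  have hvpos : ∀ᵐ x ∂(volume : Measure E3), x ∈ Om → 0 < v x := by
    filter_upwards [huv, hpos] with x h1 h2 hx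
    rw [← h1]
    exact h2 hx
  have D : Data v G φ := by
    refine ⟨fun x => le_max_right _ _, hu.ae_eq huv, hG, fun n => (hφ n).1.of_le (by exact_mod_cast le_top),
      fun n => (hφ n).2.1, ?_, lim2, ?_⟩
    · refine lim1.congr fun n => eLpNorm_congr_ae ?_
      filter_upwards [huv] with x hx
      rw [hx]
    · intro n μ hμ
      have h1 : ContDiff ℝ ((⊤ : ℕ∞) : WithTop ℕ∞) (DD μ (φ n)) :=
        (hφ n).1.sub (contDiff_dil (hφ n).1 μ)
      have hc1 : ContDiff ℝ 1 (φ n) := (hφ n).1.of_le (by exact_mod_cast le_top)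
      have h2 := (weak (DD μ (φ n)) h1 (DD_compact (hφ n).2.1 hμ)
        (tsupport_dil_sub (hφ n).2.2 hμ fun x hx => Om_star hμ hx)).2.2.2
      rw [← h2]
      refine integral_congr_ae ?_
      filter_upwards [huv] with x hx
      rw [gradient_DD hc1, hx]
      have e3 : (2 * (((3 : ℕ) : ℝ) - 1) / (((3 : ℕ) : ℝ) - 2) - 1) = ((3 : ℕ) : ℝ) := by
        norm_num
      have e4 : (4 : ℝ) = ((4 : ℕ) : ℝ) := by norm_num
      rw [e3, e4, Real.rpow_natCast, Real.rpow_natCast, Real.rpow_one]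
      rfl
  have hK := D.K_le hS
  have h5 := D.int5 hS
  have h0 : ∫ x, v x ^ 5 = 0 := le_antisymm hK (integral_nonneg fun x => pow_nonneg (D.nn x) 5)
  rw [integral_eq_zero_iff_of_nonneg (fun x => pow_nonneg (D.nn x) 5) h5] at h0
  have hfalse : ∀ᵐ x ∂(volume : Measure E3), x ∉ Om := by
    filter_upwards [h0, hvpos] with x h1 h2 hx
    have h3 : v x ^ 5 = 0 := h1
    have h4 := pow_pos (h2 hx) 5
    linarith
  have hvol : (volume : Measure E3) Om = 0 := by
    have h6 := ae_iff.1 hfalse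
    simpa using h6
  rw [Om_eq] at hvol
  exact (Metric.measure_ball_pos volume ee one_pos).ne' hvol

end Pool.Agent.Y309.HS
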