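import Pool.Agent.Y309.HS.Main4

set_option autoImplicit false
open MeasureTheory Filter Topology Set
open scoped ENNReal NNReal

namespace Pool.Agent.Y309.HS

/-- the centre of the ball -/
noncomputable def ee : E3 := EuclideanSpace.single 0 (1 : ℝ)

lemma norm_ee : ‖ee‖ = 1 := by
  unfold ee; simp

/-- the defining function -/
noncomputable def rho (x : E3) : ℝ := ‖x - ee‖ ^ 2 - 1

/-- the ball -/
noncomputable def Om : Set E3 := {x | rho x < 0}

lemma Om_eq : Om = Metric.ball ee 1 := by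
  ext x
  simp only [Om, rho, mem_setOf_eq, Metric.mem_ball, dist_eq_norm]
  constructor
  · intro h
    have : ‖x - ee‖ ^ 2 < 1 ^ 2 := by linarith
    exact lt_of_pow_lt_pow_left₀ 2 (by norm_num) this
  · intro h
    nlinarith [norm_nonneg (x - ee)]

lemma Om_star {μ : ℝ} (hμ : 1 ≤ μ) {x : E3} (h : μ ^ 2 • x ∈ Om) : x ∈ Om := by
  simp only [Om, rho, mem_setOf_eq] at h ⊢
  rw [@norm_sub_sq_real, norm_ee] at h ⊢
  rw [norm_smul, inner_smul_left, Real.norm_eq_abs, abs_of_pos (by positivity)] at h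
  simp only [conj_trivial] at h
  have h1 : 1 ≤ μ ^ 2 := one_le_pow₀ hμ
  have h2 : μ ^ 2 * (‖x‖ ^ 2 - 2 * inner ℝ x ee) ≤
      (μ ^ 2 * ‖x‖) ^ 2 - 2 * (μ ^ 2 * inner ℝ x ee) := by
    nlinarith [mul_nonneg (mul_nonneg (sq_nonneg μ) (sub_nonneg.2 h1)) (sq_nonneg ‖x‖)]
  have h3 : μ ^ 2 * (‖x‖ ^ 2 - 2 * inner ℝ x ee) < 0 := by linarith
  have h4 : ‖x‖ ^ 2 - 2 * inner ℝ x ee < 0 := by
    by_contra hcon
    push Not at hcon
    have := mul_nonneg (sq_nonneg μ) hcon
    linarith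
  linarith

lemma frontier_Om : frontier Om = Metric.sphere ee 1 := by
  rw [Om_eq, frontier_ball _ one_ne_zero]

lemma rho_smooth : ContDiff ℝ ((⊤ : ℕ∞) : WithTop ℕ∞) rho := by
  unfold rho
  exact ((contDiff_id.sub contDiff_const).norm_sq ℝ).sub contDiff_const

lemma rho_fderiv (x : E3) : fderiv ℝ rho x = 2 • (innerSL ℝ (x - ee)) := by
  have h1 : HasFDerivAt (fun y : E3 => y - ee) (ContinuousLinearMap.id ℝ E3) x :=
    (hasFDerivAt_id x).sub_const ee
  have h2 := (h1.norm_sq).sub_const (1 : ℝ)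
  have h3 : HasFDerivAt rho (2 • (innerSL ℝ (x - ee)).comp (ContinuousLinearMap.id ℝ E3)) x := h2
  rw [h3.fderiv]
  rfl

lemma rho_ne {x : E3} (hx : x ∈ frontier Om) : fderiv ℝ rho x ≠ 0 := by
  rw [frontier_Om, mem_sphere_iff_norm] at hx
  intro h
  rw [rho_fderiv] at h
  have h1 := congrArg (fun L : E3 →L[ℝ] ℝ => L (x - ee)) h
  simp only [ContinuousLinearMap.smul_apply, innerSL_apply_apply, ContinuousLinearMap.zero_apply,
    real_inner_self_eq_norm_sq, hx] at h1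
  norm_num at h1

lemma zero_mem : (0 : E3) ∈ frontier Om := by
  rw [frontier_Om, mem_sphere_iff_norm, zero_sub, norm_neg, norm_ee]

end Pool.Agent.Y309.HS
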