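import Pool.Agent.Y309.HS.Ineq2

set_option autoImplicit false
open MeasureTheory Filter Topology Set
open scoped ENNReal NNReal

namespace Pool.Agent.Y309.HS

lemma gradient_sub {φ ψ : E3 → ℝ} (hφ : ContDiff ℝ 1 φ) (hψ : ContDiff ℝ 1 ψ) (x : E3) :
    gradient (fun y => φ y - ψ y) x = gradient φ x - gradient ψ x := by
  unfold gradient
  have : fderiv ℝ (fun y => φ y - ψ y) x = fderiv ℝ φ x - fderiv ℝ ψ x :=
    fderiv_fun_sub ((hφ.differentiable one_ne_zero) x) ((hψ.differentiable one_ne_zero) x)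
  rw [this, map_sub]

/-- An inequality for test functions passes to limits. -/
lemma closure_bound {q : ℝ≥0∞} (hq : 1 ≤ q) {w : E3 → ℝ} (hw : Measurable w) {C : ℝ≥0∞}
    (hC : C ≠ ∞)
    (hineq : ∀ ψ : E3 → ℝ, ContDiff ℝ 1 ψ → HasCompactSupport ψ →
      eLpNorm (fun x => w x * ψ x) q volume ≤ C * eLpNorm (gradient ψ) 2 volume)
    {ψ : ℕ → E3 → ℝ} (hψ : ∀ n, ContDiff ℝ 1 (ψ n)) (hψc : ∀ n, HasCompactSupport (ψ n))
    {v : E3 → ℝ} {V : E3 → E3} (hv : AEStronglyMeasurable v volume)
    (hV : AEStronglyMeasurable V volume)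
    (h1 : Tendsto (fun n => eLpNorm (fun x => ψ n x - v x) 2 volume) atTop (𝓝 0))
    (h2 : Tendsto (fun n => eLpNorm (fun x => gradient (ψ n) x - V x) 2 volume) atTop (𝓝 0)) :
    (∀ n, eLpNorm (fun x => w x * (ψ n x - v x)) q volume ≤
      C * eLpNorm (fun x => gradient (ψ n) x - V x) 2 volume) ∧
    eLpNorm (fun x => w x * v x) q volume ≤ C * eLpNorm V 2 volume := by
  have hψm : ∀ n, AEStronglyMeasurable (ψ n) volume := fun n =>
    (hψ n).continuous.aestronglyMeasurable
  have hgm : ∀ n, AEStronglyMeasurable (gradient (ψ n)) volume := fun n =>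
    (continuous_gradient (hψ n)).aestronglyMeasurable
  have hmeas : TendstoInMeasure volume ψ atTop v :=
    tendstoInMeasure_of_tendsto_eLpNorm (p := 2) two_ne_zero hψm hv h1
  obtain ⟨ns, hns, hae⟩ := hmeas.exists_seq_tendsto_ae
  have first : ∀ n, eLpNorm (fun x => w x * (ψ n x - v x)) q volume ≤
      C * eLpNorm (fun x => gradient (ψ n) x - V x) 2 volume := by
    intro n
    have hlim := Lp.eLpNorm_lim_le_liminf_eLpNorm (p := q) (μ := (volume : Measure E3))
      (f := fun k x => w x * (ψ n x - ψ (ns k) x))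
      (fun k => hw.aestronglyMeasurable.mul ((hψm n).sub (hψm (ns k))))
      (fun x => w x * (ψ n x - v x)) ?_
    · refine hlim.trans ?_
      have hb : ∀ k, eLpNorm (fun x => w x * (ψ n x - ψ (ns k) x)) q volume ≤
          C * (eLpNorm (fun x => gradient (ψ n) x - V x) 2 volume +
            eLpNorm (fun x => gradient (ψ (ns k)) x - V x) 2 volume) := by
        intro k
        have hc : HasCompactSupport (fun x => ψ n x - ψ (ns k) x) := by
          have := (hψc n).sub (hψc (ns k))
          exact this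
        refine (hineq _ ((hψ n).sub (hψ (ns k))) hc).trans ?_
        gcongr
        have e : gradient (fun y => ψ n y - ψ (ns k) y) =
            (fun x => gradient (ψ n) x - V x) - (fun x => gradient (ψ (ns k)) x - V x) := by
          funext x
          rw [gradient_sub (hψ n) (hψ (ns k))]
          simp
        rw [e]
        exact eLpNorm_sub_le ((hgm n).sub hV) ((hgm (ns k)).sub hV) (by norm_num)
      have hT : Tendsto (fun k => C * (eLpNorm (fun x => gradient (ψ n) x - V x) 2 volume +
            eLpNorm (fun x => gradient (ψ (ns k)) x - V x) 2 volume)) atTop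
          (𝓝 (C * (eLpNorm (fun x => gradient (ψ n) x - V x) 2 volume + 0))) := by
        refine ENNReal.Tendsto.const_mul ?_ (Or.inr hC)
        exact tendsto_const_nhds.add (h2.comp hns.tendsto_atTop)
      rw [add_zero] at hT
      rw [← hT.liminf_eq]
      exact liminf_le_liminf (Eventually.of_forall hb)
    · filter_upwards [hae] with x hx
      exact (tendsto_const_nhds.sub hx).const_mul _
  refine ⟨first, ?_⟩
  have hb : ∀ n, eLpNorm (fun x => w x * v x) q volume ≤
      C * (eLpNorm V 2 volume + 2 * eLpNorm (fun x => gradient (ψ n) x - V x) 2 volume) := by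
    intro n
    have e : (fun x => w x * v x) = (fun x => w x * ψ n x) - (fun x => w x * (ψ n x - v x)) := by
      funext x
      simp only [Pi.sub_apply]
      ring
    have h3 := eLpNorm_sub_le (p := q) (μ := (volume : Measure E3))
      (hw.aestronglyMeasurable.mul (hψm n))
      (hw.aestronglyMeasurable.mul ((hψm n).sub hv)) hq
    rw [e]
    refine h3.trans ?_
    have h4 : eLpNorm (gradient (ψ n)) 2 volume ≤ eLpNorm V 2 volume +
        eLpNorm (fun x => gradient (ψ n) x - V x) 2 volume := by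
      have e2 : gradient (ψ n) = V + fun x => gradient (ψ n) x - V x := by
        funext x; simp
      calc eLpNorm (gradient (ψ n)) 2 volume
          = eLpNorm (V + fun x => gradient (ψ n) x - V x) 2 volume := by rw [← e2]
        _ ≤ _ := eLpNorm_add_le hV ((hgm n).sub hV) (by norm_num)
    calc _ ≤ C * eLpNorm (gradient (ψ n)) 2 volume +
          C * eLpNorm (fun x => gradient (ψ n) x - V x) 2 volume :=
          add_le_add (hineq _ (hψ n) (hψc n)) (first n)
      _ ≤ C * (eLpNorm V 2 volume + eLpNorm (fun x => gradient (ψ n) x - V x) 2 volume) +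
          C * eLpNorm (fun x => gradient (ψ n) x - V x) 2 volume := by gcongr
      _ = _ := by ring
  have hT : Tendsto (fun n => C * (eLpNorm V 2 volume +
        2 * eLpNorm (fun x => gradient (ψ n) x - V x) 2 volume)) atTop
      (𝓝 (C * (eLpNorm V 2 volume + 2 * 0))) := by
    refine ENNReal.Tendsto.const_mul ?_ (Or.inr hC)
    exact tendsto_const_nhds.add (ENNReal.Tendsto.const_mul h2 (Or.inr (by simp)))
  rw [mul_zero, add_zero] at hT
  exact ge_of_tendsto' hT hb

instance ht663 : ENNReal.HolderTriple 6 6 3 := ⟨by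
  have h1 : (6 : ℝ≥0∞)⁻¹ = ENNReal.ofReal (1 / 6) := by
    rw [one_div, ENNReal.ofReal_inv_of_pos (by norm_num)]; simp
  have h2 : (3 : ℝ≥0∞)⁻¹ = ENNReal.ofReal (1 / 3) := by
    rw [one_div, ENNReal.ofReal_inv_of_pos (by norm_num)]; simp
  rw [h1, h2, ← ENNReal.ofReal_add (by norm_num) (by norm_num)]
  norm_num⟩

instance ht362 : ENNReal.HolderTriple 3 6 2 := ⟨by
  have h1 : (6 : ℝ≥0∞)⁻¹ = ENNReal.ofReal (1 / 6) := by
    rw [one_div, ENNReal.ofReal_inv_of_pos (by norm_num)]; simp
  have h2 : (3 : ℝ≥0∞)⁻¹ = ENNReal.ofReal (1 / 3) := by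
    rw [one_div, ENNReal.ofReal_inv_of_pos (by norm_num)]; simp
  have h3 : (2 : ℝ≥0∞)⁻¹ = ENNReal.ofReal (1 / 2) := by
    rw [one_div, ENNReal.ofReal_inv_of_pos (by norm_num)]; simp
  rw [h1, h2, h3, ← ENNReal.ofReal_add (by norm_num) (by norm_num)]
  norm_num⟩

/-- Hölder's inequality with the exponents `6, 6, 6, 2`. -/
lemma holder4 {a b c d : E3 → ℝ} (ha : AEStronglyMeasurable a volume)
    (hb : AEStronglyMeasurable b volume) (hc : AEStronglyMeasurable c volume)
    (hd : AEStronglyMeasurable d volume) :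
    eLpNorm (fun x => a x * b x * c x * d x) 1 volume ≤
      eLpNorm a 6 volume * eLpNorm b 6 volume * eLpNorm c 6 volume * eLpNorm d 2 volume := by
  have h1 : eLpNorm (a • b) 3 volume ≤ eLpNorm a 6 volume * eLpNorm b 6 volume :=
    eLpNorm_smul_le_mul_eLpNorm hb ha
  have h2 : eLpNorm ((a • b) • c) 2 volume ≤ eLpNorm (a • b) 3 volume * eLpNorm c 6 volume :=
    eLpNorm_smul_le_mul_eLpNorm hc (ha.smul hb)
  have h3 : eLpNorm (((a • b) • c) • d) 1 volume ≤
      eLpNorm ((a • b) • c) 2 volume * eLpNorm d 2 volume :=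
    eLpNorm_smul_le_mul_eLpNorm hd ((ha.smul hb).smul hc)
  have e : (fun x => a x * b x * c x * d x) = ((a • b) • c) • d := rfl
  rw [e]
  calc _ ≤ eLpNorm ((a • b) • c) 2 volume * eLpNorm d 2 volume := h3
    _ ≤ (eLpNorm (a • b) 3 volume * eLpNorm c 6 volume) * eLpNorm d 2 volume := by gcongr
    _ ≤ _ := by gcongr

lemma holder_inner {F H : E3 → E3} (hF : AEStronglyMeasurable F volume)
    (hH : AEStronglyMeasurable H volume) :
    eLpNorm (fun x => inner ℝ (F x) (H x)) 1 volume ≤ eLpNorm F 2 volume * eLpNorm H 2 volume := by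
  have h1 : eLpNorm (fun x => inner ℝ (F x) (H x)) 1 volume ≤
      eLpNorm ((fun x => ‖F x‖) • (fun x => ‖H x‖)) 1 volume := by
    refine eLpNorm_mono fun x => ?_
    rw [Pi.smul_apply', smul_eq_mul, norm_mul, norm_norm, norm_norm]
    exact norm_inner_le_norm _ _
  refine h1.trans ?_
  refine (eLpNorm_smul_le_mul_eLpNorm (p := 2) (q := 2) (r := 1) hH.norm hF.norm).trans ?_
  rw [eLpNorm_norm, eLpNorm_norm]

end Pool.Agent.Y309.HS
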