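import Mathlib
import Pool.Agent.W705.TWB.Hardy

set_option autoImplicit false
open MeasureTheory Filter Topology Set
open scoped ENNReal NNReal

namespace Pool.Agent.Y309.HS

abbrev E3 := EuclideanSpace ℝ (Fin 3)

lemma fr3 : Module.finrank ℝ E3 = 3 := finrank_euclideanSpace_fin

/-- change of variables -/
lemma eLpNorm_comp_smul {F : Type*} [NormedAddCommGroup F] (f : E3 → F) {c : ℝ} (hc : 0 < c)
    {p : ℝ≥0∞} (hp : p ≠ 0) (hp' : p ≠ ∞) :
    eLpNorm (fun x => f (c • x)) p volume =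
      ENNReal.ofReal ((c ^ 3)⁻¹) ^ (1 / p.toReal) * eLpNorm f p volume := by
  have h1 : MeasurableEmbedding (fun x : E3 => c • x) :=
    (Homeomorph.smulOfNeZero c hc.ne' : E3 ≃ₜ E3).measurableEmbedding
  have h2 := h1.eLpNorm_map_measure (g := f) (p := p) (μ := volume)
  have h3 : Measure.map (fun x : E3 => c • x) volume =
      ENNReal.ofReal (|(c ^ Module.finrank ℝ E3)⁻¹|) • (volume : Measure E3) :=
    Measure.map_addHaar_smul volume hc.ne'
  rw [fr3, abs_of_pos (by positivity)] at h3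
  rw [h3] at h2
  have h4 : (f ∘ fun x : E3 => c • x) = fun x => f (c • x) := rfl
  rw [← h4, ← h2, eLpNorm_smul_measure_of_ne_top hp' , smul_eq_mul]
  simp

/-- Sobolev inequality -/
lemma sobolev : ∃ C : ℝ≥0, ∀ φ : E3 → ℝ, ContDiff ℝ 1 φ → HasCompactSupport φ →
    eLpNorm φ 6 volume ≤ C * eLpNorm (gradient φ) 2 volume := by
  refine ⟨SNormLESNormFDerivOfEqConst ℝ (volume : Measure E3) 2, fun φ hφ hc => ?_⟩
  have h := eLpNorm_le_eLpNorm_fderiv_of_eq (F := ℝ) (volume : Measure E3) hφ hc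
    (p := 2) (p' := 6) (by norm_num) (by rw [fr3]; norm_num) (by rw [fr3]; norm_num)
  have h2 : eLpNorm (fderiv ℝ φ) 2 volume = eLpNorm (gradient φ) 2 volume := by
    refine eLpNorm_congr_norm_ae (Eventually.of_forall fun x => ?_)
    rw [gradient, LinearIsometryEquiv.norm_map]
  rw [← h2]
  exact_mod_cast h

end Pool.Agent.Y309.HS
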