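import Pool.Agent.Y309.HS.Ineq

set_option autoImplicit false
open MeasureTheory Filter Topology Set
open scoped ENNReal NNReal

namespace Pool.Agent.Y309.HS

lemma eLpNorm_two_sq {F : Type*} [NormedAddCommGroup F] (f : E3 → F) :
    eLpNorm f 2 volume ^ 2 = ∫⁻ x, ENNReal.ofReal (‖f x‖ ^ 2) := by
  have h := eLpNorm_nnreal_pow_eq_lintegral (f := f) (μ := (volume : Measure E3)) (p := 2)
    (by norm_num)
  have e1 : eLpNorm f 2 volume ^ 2 = eLpNorm f ((2 : ℝ≥0) : ℝ≥0∞) volume ^ ((2 : ℝ≥0) : ℝ) := by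
    rw [show ((2 : ℝ≥0) : ℝ) = ((2 : ℕ) : ℝ) by norm_num, ENNReal.rpow_natCast]
    rfl
  rw [e1, h]
  refine lintegral_congr fun x => ?_
  rw [show ((2 : ℝ≥0) : ℝ) = ((2 : ℕ) : ℝ) by norm_num, ENNReal.rpow_natCast, ← ofReal_norm,
    ENNReal.ofReal_pow (norm_nonneg _)]

lemma norm_gradient (φ : E3 → ℝ) (x : E3) : ‖gradient φ x‖ = ‖fderiv ℝ φ x‖ := by
  rw [gradient, LinearIsometryEquiv.norm_map]

lemma continuous_gradient {φ : E3 → ℝ} (hφ : ContDiff ℝ 1 φ) : Continuous (gradient φ) := by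
  unfold gradient
  exact (InnerProductSpace.toDual ℝ E3).symm.continuous.comp (hφ.continuous_fderiv one_ne_zero)

lemma hasCompactSupport_gradient {φ : E3 → ℝ} (hc : HasCompactSupport φ) :
    HasCompactSupport (gradient φ) := by
  refine (hc.fderiv ℝ).comp_left (g := (InnerProductSpace.toDual ℝ E3).symm) ?_
  exact map_zero _

lemma gradient_sq (φ : E3 → ℝ) (x : E3) :
    ‖gradient φ x‖ ^ 2 = ∑ k : Fin 3, (fderiv ℝ φ x (EuclideanSpace.single k (1 : ℝ))) ^ 2 := by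
  rw [EuclideanSpace.real_norm_sq_eq]
  refine Finset.sum_congr rfl fun k _ => ?_
  congr 1
  have h1 : inner ℝ (gradient φ x) (EuclideanSpace.single k (1 : ℝ)) =
      fderiv ℝ φ x (EuclideanSpace.single k (1 : ℝ)) := by
    unfold gradient
    rw [InnerProductSpace.toDual_symm_apply]
  rw [← h1, EuclideanSpace.inner_single_right]
  simp

/-- Hardy's inequality -/
lemma hardy {φ : E3 → ℝ} (hφ : ContDiff ℝ 1 φ) (hc : HasCompactSupport φ) :
    eLpNorm (fun x => φ x / ‖x‖) 2 volume ≤ 2 * eLpNorm (gradient φ) 2 volume := by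
  have hv : ContDiff ℝ 1 (fun x : E3 => ((φ x : ℝ) : ℂ)) := Complex.ofRealCLM.contDiff.comp hφ
  have hvc : HasCompactSupport (fun x : E3 => ((φ x : ℝ) : ℂ)) :=
    hc.comp_left (g := fun t : ℝ => (t : ℂ)) (by simp)
  obtain ⟨h1, h2⟩ := Pool.Agent.W705.TWB.hardy _ hv hvc
  have h3 : ∀ x, Pool.Agent.W734.TWB.g3 (fun x : E3 => ((φ x : ℝ) : ℂ)) x = ‖gradient φ x‖ ^ 2 := by
    intro x
    rw [gradient_sq]
    unfold Pool.Agent.W734.TWB.g3
    refine Finset.sum_congr rfl fun k _ => ?_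
    have h4 : HasFDerivAt (fun x : E3 => ((φ x : ℝ) : ℂ))
        (Complex.ofRealCLM.comp (fderiv ℝ φ x)) x :=
      Complex.ofRealCLM.hasFDerivAt.comp x ((hφ.differentiable one_ne_zero) x).hasFDerivAt
    rw [h4.fderiv]
    simp
  simp only [h3] at h2
  have h5 : ∀ x : E3, ‖((φ x : ℝ) : ℂ)‖ ^ 2 / ‖x‖ ^ 2 = ‖φ x / ‖x‖‖ ^ 2 := by
    intro x
    rw [norm_div, Complex.norm_real, norm_norm, div_pow]
  simp only [h5] at h1 h2
  have h6 : Integrable (fun x => ‖gradient φ x‖ ^ 2) := by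
    refine Continuous.integrable_of_hasCompactSupport ((continuous_gradient hφ).norm.pow 2) ?_
    exact (hasCompactSupport_gradient hc).comp_left (g := fun v : E3 => ‖v‖ ^ 2) (by simp)
  have h7 : eLpNorm (fun x => φ x / ‖x‖) 2 volume ^ 2 ≤ (2 * eLpNorm (gradient φ) 2 volume) ^ 2 := by
    rw [mul_pow, eLpNorm_two_sq, eLpNorm_two_sq,
      ← ofReal_integral_eq_lintegral_ofReal h1 (Eventually.of_forall fun x => by positivity),
      ← ofReal_integral_eq_lintegral_ofReal h6 (Eventually.of_forall fun x => by positivity)]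
    have h8 : (2 : ℝ≥0∞) ^ 2 = ENNReal.ofReal 4 := by
      rw [show (4 : ℝ) = 2 ^ 2 by norm_num, ENNReal.ofReal_pow (by norm_num)]
      simp
    rw [h8, ← ENNReal.ofReal_mul (by norm_num)]
    exact ENNReal.ofReal_le_ofReal h2
  exact (ENNReal.pow_le_pow_left_iff two_ne_zero).1 h7

/-- The Cauchy-Schwarz inequality on an interval. -/
lemma sq_integral_le {k : ℝ → ℝ} (hk : Continuous k) {μ : ℝ} (hμ : 1 ≤ μ) :
    (∫ t in (1 : ℝ)..μ, k t) ^ 2 ≤ (μ - 1) * ∫ t in (1 : ℝ)..μ, k t ^ 2 := by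
  rcases hμ.lt_or_eq with h | h
  · have hpos : 0 < μ - 1 := sub_pos.2 h
    set I := ∫ t in (1 : ℝ)..μ, k t with hI
    set m := I / (μ - 1) with hm
    have h1 : 0 ≤ ∫ t in (1 : ℝ)..μ, (k t - m) ^ 2 :=
      intervalIntegral.integral_nonneg hμ fun t _ => sq_nonneg _
    have h2 : ∫ t in (1 : ℝ)..μ, (k t - m) ^ 2 =
        (∫ t in (1 : ℝ)..μ, k t ^ 2) - 2 * m * I + m ^ 2 * (μ - 1) := by
      have e : ∀ t, (k t - m) ^ 2 = k t ^ 2 - 2 * m * k t + m ^ 2 := fun t => by ring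
      simp only [e]
      rw [intervalIntegral.integral_add, intervalIntegral.integral_sub,
        intervalIntegral.integral_const_mul, intervalIntegral.integral_const]
      · simp; ring
      · exact (hk.pow 2).intervalIntegrable _ _
      · exact (continuous_const.mul hk).intervalIntegrable _ _
      · exact ((hk.pow 2).sub (continuous_const.mul hk)).intervalIntegrable _ _
      · exact continuous_const.intervalIntegrable _ _
    rw [h2] at h1
    have h3 : m * (μ - 1) = I := by rw [hm]; field_simp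
    nlinarith
  · subst h; simp

/-- the generator of the dilations -/
noncomputable def gen (φ : E3 → ℝ) (y : E3) : ℝ := φ y + 2 * fderiv ℝ φ y y

lemma continuous_gen {φ : E3 → ℝ} (hφ : ContDiff ℝ 1 φ) : Continuous (gen φ) := by
  unfold gen
  exact hφ.continuous.add (continuous_const.mul
    ((hφ.continuous_fderiv one_ne_zero).clm_apply continuous_id))

lemma gen_ftc {φ : E3 → ℝ} (hφ : ContDiff ℝ 1 φ) (x : E3) (μ : ℝ) :
    μ * φ (μ ^ 2 • x) - φ x = ∫ t in (1 : ℝ)..μ, gen φ (t ^ 2 • x) := by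
  have h1 : ∀ t ∈ uIcc 1 μ, HasDerivAt (fun t : ℝ => t * φ (t ^ 2 • x)) (gen φ (t ^ 2 • x)) t := by
    intro t _
    have h2 : HasDerivAt (fun t : ℝ => t ^ 2 • x) ((2 * t) • x) t := by
      have := (hasDerivAt_pow 2 t).smul_const x
      simpa using this
    have h3 : HasDerivAt (fun t : ℝ => φ (t ^ 2 • x)) (fderiv ℝ φ (t ^ 2 • x) ((2 * t) • x)) t :=
      ((hφ.differentiable one_ne_zero) _).hasFDerivAt.comp_hasDerivAt t h2
    have h4 := (hasDerivAt_id t).mul h3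
    refine h4.congr_deriv ?_
    unfold gen
    simp only [map_smul, smul_eq_mul, id]
    ring
  have h2 : Continuous (fun t : ℝ => gen φ (t ^ 2 • x)) :=
    (continuous_gen hφ).comp (by fun_prop)
  rw [intervalIntegral.integral_eq_sub_of_hasDerivAt h1 (h2.intervalIntegrable _ _)]
  simp

lemma gen_scaled {φ : E3 → ℝ} {t : ℝ} (ht : 1 ≤ t) :
    eLpNorm (fun x => gen φ (t ^ 2 • x) / ‖x‖) 2 volume ≤
      eLpNorm (fun x => gen φ x / ‖x‖) 2 volume := by
  have ht0 : 0 < t := by linarith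
  have ht2 : 0 < t ^ 2 := by positivity
  have e : (fun x : E3 => gen φ (t ^ 2 • x) / ‖x‖) =
      (t ^ 2) • fun x : E3 => (fun y : E3 => gen φ y / ‖y‖) (t ^ 2 • x) := by
    funext x
    simp only [Pi.smul_apply, smul_eq_mul, norm_smul, Real.norm_eq_abs, abs_of_pos ht2]
    rcases eq_or_ne ‖x‖ 0 with h | h
    · rw [h]; simp
    · field_simp
  rw [e, eLpNorm_const_smul, eLpNorm_comp_smul (fun y : E3 => gen φ y / ‖y‖) ht2 two_ne_zero
    (by simp), ← mul_assoc]
  have h1 : ‖(t ^ 2 : ℝ)‖ₑ * ENNReal.ofReal (((t ^ 2) ^ 3)⁻¹) ^ (1 / (2 : ℝ≥0∞).toReal) ≤ 1 := by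
    rw [Real.enorm_eq_ofReal ht2.le, ENNReal.ofReal_rpow_of_pos (by positivity),
      ← ENNReal.ofReal_mul ht2.le]
    have h2 : ((((t ^ 2) ^ 3)⁻¹ : ℝ)) ^ (1 / (2 : ℝ≥0∞).toReal) = (t ^ 3)⁻¹ := by
      have : (1 / (2 : ℝ≥0∞).toReal) = (1 / 2 : ℝ) := by simp
      rw [this, ← Real.sqrt_eq_rpow, Real.sqrt_inv]
      congr 1
      rw [show (t ^ 2) ^ 3 = (t ^ 3) ^ 2 by ring, Real.sqrt_sq (by positivity)]
    rw [h2]
    have h3 : t ^ 2 * (t ^ 3)⁻¹ ≤ 1 := by
      rw [← div_eq_mul_inv, div_le_one (by positivity)]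
      exact pow_le_pow_right₀ ht (by norm_num)
    calc ENNReal.ofReal (t ^ 2 * (t ^ 3)⁻¹) ≤ ENNReal.ofReal 1 := ENNReal.ofReal_le_ofReal h3
      _ = 1 := by simp
  calc _ ≤ 1 * eLpNorm (fun y : E3 => gen φ y / ‖y‖) 2 volume := by gcongr
    _ = _ := one_mul _

lemma gen_norm {φ : E3 → ℝ} (hφ : ContDiff ℝ 1 φ) (hc : HasCompactSupport φ) :
    eLpNorm (fun x => gen φ x / ‖x‖) 2 volume ≤ 4 * eLpNorm (gradient φ) 2 volume := by
  have e : (fun x : E3 => gen φ x / ‖x‖) =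
      (fun x => φ x / ‖x‖) + (fun x => 2 * fderiv ℝ φ x x / ‖x‖) := by
    funext x
    simp only [Pi.add_apply, gen]
    ring
  have hm1 : AEStronglyMeasurable (fun x : E3 => φ x / ‖x‖) volume :=
    (hφ.continuous.measurable.div measurable_norm).aestronglyMeasurable
  have hm2 : AEStronglyMeasurable (fun x : E3 => 2 * fderiv ℝ φ x x / ‖x‖) volume := by
    have : Continuous (fun x : E3 => 2 * fderiv ℝ φ x x) :=
      continuous_const.mul ((hφ.continuous_fderiv one_ne_zero).clm_apply continuous_id)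
    exact (this.measurable.div measurable_norm).aestronglyMeasurable
  have h1 : eLpNorm (fun x => 2 * fderiv ℝ φ x x / ‖x‖) 2 volume ≤
      2 * eLpNorm (gradient φ) 2 volume := by
    have h2 : eLpNorm (fun x => 2 * fderiv ℝ φ x x / ‖x‖) 2 volume ≤
        eLpNorm ((2 : ℝ) • gradient φ) 2 volume := by
      refine eLpNorm_mono fun x => ?_
      rw [norm_div, norm_mul, norm_norm, Pi.smul_apply, norm_smul, norm_gradient]
      rcases eq_or_ne x 0 with h | h
      · subst h; simp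
      · have hx : 0 < ‖x‖ := norm_pos_iff.2 h
        rw [div_le_iff₀ hx]
        have := (fderiv ℝ φ x).le_opNorm x
        calc ‖(2 : ℝ)‖ * ‖fderiv ℝ φ x x‖ ≤ ‖(2 : ℝ)‖ * (‖fderiv ℝ φ x‖ * ‖x‖) := by gcongr
          _ = _ := by ring
    rw [eLpNorm_const_smul] at h2
    have h3 : ‖(2 : ℝ)‖ₑ = 2 := by
      rw [Real.enorm_eq_ofReal (by norm_num)]; simp
    rwa [h3] at h2
  rw [e]
  refine (eLpNorm_add_le hm1 hm2 (by norm_num)).trans ?_
  calc _ ≤ 2 * eLpNorm (gradient φ) 2 volume + 2 * eLpNorm (gradient φ) 2 volume :=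
        add_le_add (hardy hφ hc) h1
    _ = _ := by rw [← add_mul]; norm_num

/-- difference of a function and its dilate -/
lemma dil_diff {φ : E3 → ℝ} (hφ : ContDiff ℝ 1 φ) (hc : HasCompactSupport φ) {μ : ℝ}
    (hμ : 1 ≤ μ) :
    eLpNorm (fun x => (φ x - μ * φ (μ ^ 2 • x)) / ‖x‖) 2 volume ≤
      ENNReal.ofReal (4 * (μ - 1)) * eLpNorm (gradient φ) 2 volume := by
  set A := eLpNorm (fun x => gen φ x / ‖x‖) 2 volume with hA
  have hμ0 : 0 ≤ μ - 1 := sub_nonneg.2 hμ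
  have hgc := continuous_gen hφ
  have key : eLpNorm (fun x => (φ x - μ * φ (μ ^ 2 • x)) / ‖x‖) 2 volume ^ 2 ≤
      (ENNReal.ofReal (μ - 1) * A) ^ 2 := by
    rw [eLpNorm_two_sq]
    have h1 : ∀ x : E3, ENNReal.ofReal (‖(φ x - μ * φ (μ ^ 2 • x)) / ‖x‖‖ ^ 2) ≤
        ENNReal.ofReal (μ - 1) *
          ∫⁻ t in Ioc (1 : ℝ) μ, ENNReal.ofReal (‖gen φ (t ^ 2 • x) / ‖x‖‖ ^ 2) := by
      intro x
      have hcont : Continuous (fun t : ℝ => gen φ (t ^ 2 • x)) := hgc.comp (by fun_prop)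
      have h2 := sq_integral_le hcont hμ
      rw [← gen_ftc hφ x μ] at h2
      have hcont2 : Continuous (fun t : ℝ => ‖gen φ (t ^ 2 • x) / ‖x‖‖ ^ 2) :=
        (hcont.div_const _).norm.pow 2
      have h3 : ∫⁻ t in Ioc (1 : ℝ) μ, ENNReal.ofReal (‖gen φ (t ^ 2 • x) / ‖x‖‖ ^ 2) =
          ENNReal.ofReal (∫ t in (1 : ℝ)..μ, ‖gen φ (t ^ 2 • x) / ‖x‖‖ ^ 2) := by
        rw [intervalIntegral.integral_of_le hμ]
        refine (ofReal_integral_eq_lintegral_ofReal ?_
          (Eventually.of_forall fun t => by positivity)).symm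
        exact (hcont2.continuousOn.integrableOn_Icc).mono_set Ioc_subset_Icc_self
      rw [h3, ← ENNReal.ofReal_mul hμ0]
      refine ENNReal.ofReal_le_ofReal ?_
      have h4 : ∀ t : ℝ, ‖gen φ (t ^ 2 • x) / ‖x‖‖ ^ 2 = gen φ (t ^ 2 • x) ^ 2 * (‖x‖ ^ 2)⁻¹ := by
        intro t
        rw [norm_div, norm_norm, div_pow, Real.norm_eq_abs, sq_abs, div_eq_mul_inv]
      simp only [h4]
      rw [intervalIntegral.integral_mul_const, norm_div, norm_norm, div_pow, Real.norm_eq_abs,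
        sq_abs, div_eq_mul_inv, ← mul_assoc]
      refine mul_le_mul_of_nonneg_right ?_ (by positivity)
      calc (φ x - μ * φ (μ ^ 2 • x)) ^ 2 = (μ * φ (μ ^ 2 • x) - φ x) ^ 2 := by ring
        _ ≤ _ := h2
    refine (lintegral_mono h1).trans ?_
    rw [lintegral_const_mul' _ _ ENNReal.ofReal_ne_top, lintegral_lintegral_swap]
    · have h5 : ∀ t ∈ Ioc (1 : ℝ) μ,
          ∫⁻ x : E3, ENNReal.ofReal (‖gen φ (t ^ 2 • x) / ‖x‖‖ ^ 2) ≤ A ^ 2 := by
        intro t ht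
        have h6 := gen_scaled (φ := φ) ht.1.le
        have h7 := eLpNorm_two_sq (fun x : E3 => gen φ (t ^ 2 • x) / ‖x‖)
        rw [← h7]
        gcongr
      calc ENNReal.ofReal (μ - 1) * ∫⁻ t in Ioc (1 : ℝ) μ,
            ∫⁻ x : E3, ENNReal.ofReal (‖gen φ (t ^ 2 • x) / ‖x‖‖ ^ 2)
          ≤ ENNReal.ofReal (μ - 1) * ∫⁻ _t in Ioc (1 : ℝ) μ, A ^ 2 := by
            exact mul_le_mul_right (setLIntegral_mono' measurableSet_Ioc h5) _
        _ = (ENNReal.ofReal (μ - 1) * A) ^ 2 := by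
            rw [lintegral_const, Measure.restrict_apply_univ, Real.volume_Ioc]
            ring
    · refine Measurable.aemeasurable ?_
      refine ENNReal.measurable_ofReal.comp ?_
      refine Measurable.pow_const ?_ 2
      refine Measurable.norm ?_
      refine Measurable.div ?_ (measurable_norm.comp measurable_fst)
      have : Continuous (fun z : E3 × ℝ => gen φ (z.2 ^ 2 • z.1)) := hgc.comp (by fun_prop)
      exact this.measurable
  have h8 := (ENNReal.pow_le_pow_left_iff two_ne_zero).1 key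
  refine h8.trans ?_
  calc ENNReal.ofReal (μ - 1) * A ≤ ENNReal.ofReal (μ - 1) * (4 * eLpNorm (gradient φ) 2 volume) := by
        gcongr
        exact gen_norm hφ hc
    _ = ENNReal.ofReal (4 * (μ - 1)) * eLpNorm (gradient φ) 2 volume := by
        rw [ENNReal.ofReal_mul (by norm_num), ← mul_assoc, mul_comm (ENNReal.ofReal (μ - 1)) 4]
        simp

end Pool.Agent.Y309.HS
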