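import Pool.Agent.Y309.HS.Clos

set_option autoImplicit false
open MeasureTheory Filter Topology Set
open scoped ENNReal NNReal

namespace Pool.Agent.Y309.HS

/-- the relevant data of a solution -/
structure Data (u : E3 → ℝ) (G : E3 → E3) (φ : ℕ → E3 → ℝ) : Prop where
  nn : ∀ x, 0 ≤ u x
  hu : MemLp u 2 volume
  hG : MemLp G 2 volume
  hφ : ∀ n, ContDiff ℝ 1 (φ n)
  hc : ∀ n, HasCompactSupport (φ n)
  lim1 : Tendsto (fun n => eLpNorm (fun x => φ n x - u x) 2 volume) atTop (𝓝 0)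
  lim2 : Tendsto (fun n => eLpNorm (fun x => gradient (φ n) x - G x) 2 volume) atTop (𝓝 0)
  weak : ∀ n (μ : ℝ), 1 ≤ μ →
    ∫ x, (inner ℝ (G x) (gradient (φ n) x - μ ^ 3 • gradient (φ n) (μ ^ 2 • x)) +
      u x ^ 4 * (φ n x - μ * φ n (μ ^ 2 • x)) -
      u x ^ 3 * (φ n x - μ * φ n (μ ^ 2 • x)) / ‖x‖) = 0

lemma sob_w {C : ℝ≥0} (h : ∀ φ : E3 → ℝ, ContDiff ℝ 1 φ → HasCompactSupport φ →
    eLpNorm φ 6 volume ≤ C * eLpNorm (gradient φ) 2 volume) :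
    ∀ ψ : E3 → ℝ, ContDiff ℝ 1 ψ → HasCompactSupport ψ →
      eLpNorm (fun x => (fun _ : E3 => (1 : ℝ)) x * ψ x) 6 volume ≤
        (C : ℝ≥0∞) * eLpNorm (gradient ψ) 2 volume := by
  intro ψ h1 h2
  simpa using h ψ h1 h2

lemma har_w : ∀ ψ : E3 → ℝ, ContDiff ℝ 1 ψ → HasCompactSupport ψ →
      eLpNorm (fun x => (fun y : E3 => ‖y‖⁻¹) x * ψ x) 2 volume ≤
        (2 : ℝ≥0∞) * eLpNorm (gradient ψ) 2 volume := by
  intro ψ h1 h2
  have e : (fun x => (fun y : E3 => ‖y‖⁻¹) x * ψ x) = fun x => ψ x / ‖x‖ := by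
    funext x; simp only [div_eq_mul_inv]; ring
  rw [e]
  exact hardy h1 h2

lemma gradient_dil {φ : E3 → ℝ} (hφ : ContDiff ℝ 1 φ) (μ : ℝ) (x : E3) :
    gradient (fun y => μ * φ (μ ^ 2 • y)) x = μ ^ 3 • gradient φ (μ ^ 2 • x) := by
  unfold gradient
  have h1 : HasFDerivAt (fun y : E3 => μ ^ 2 • y) (μ ^ 2 • ContinuousLinearMap.id ℝ E3) x :=
    (μ ^ 2 • ContinuousLinearMap.id ℝ E3).hasFDerivAt
  have h2 : HasFDerivAt (fun y : E3 => φ (μ ^ 2 • y))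
      ((fderiv ℝ φ (μ ^ 2 • x)).comp (μ ^ 2 • ContinuousLinearMap.id ℝ E3)) x :=
    ((hφ.differentiable one_ne_zero) _).hasFDerivAt.comp x h1
  have h3 := h2.const_mul μ
  rw [h3.fderiv]
  have h4 : μ • ((fderiv ℝ φ (μ ^ 2 • x)).comp (μ ^ 2 • ContinuousLinearMap.id ℝ E3)) =
      μ ^ 3 • fderiv ℝ φ (μ ^ 2 • x) := by
    ext v
    simp
    ring
  rw [h4, map_smulₛₗ]
  simp

lemma contDiff_dil {φ : E3 → ℝ} {n : WithTop ℕ∞} (hφ : ContDiff ℝ n φ) (μ : ℝ) :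
    ContDiff ℝ n (fun y => μ * φ (μ ^ 2 • y)) :=
  contDiff_const.mul (hφ.comp (contDiff_const_smul _))

lemma hasCompactSupport_dil {φ : E3 → ℝ} (hc : HasCompactSupport φ) {μ : ℝ} (hμ : 1 ≤ μ) :
    HasCompactSupport (fun y => μ * φ (μ ^ 2 • y)) := by
  have h1 : HasCompactSupport (fun y : E3 => φ (μ ^ 2 • y)) :=
    hc.comp_homeomorph (Homeomorph.smulOfNeZero (μ ^ 2) (by positivity) : E3 ≃ₜ E3)
  exact h1.mul_left

/-- the dilation constant for `L²` -/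
lemma tend_dil {F : Type*} [NormedAddCommGroup F] [NormedSpace ℝ F] {f : ℕ → E3 → F} {μ : ℝ}
    (hμ : 1 ≤ μ) (k : ℕ)
    (h : Tendsto (fun n => eLpNorm (f n) 2 volume) atTop (𝓝 0)) :
    Tendsto (fun n => eLpNorm (fun x => μ ^ k • f n (μ ^ 2 • x)) 2 volume) atTop (𝓝 0) := by
  have hμ2 : 0 < μ ^ 2 := by positivity
  have e : ∀ n, eLpNorm (fun x => μ ^ k • f n (μ ^ 2 • x)) 2 volume =
      (‖μ ^ k‖ₑ * ENNReal.ofReal (((μ ^ 2) ^ 3)⁻¹) ^ (1 / (2 : ℝ≥0∞).toReal)) *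
        eLpNorm (f n) 2 volume := by
    intro n
    have e1 : (fun x => μ ^ k • f n (μ ^ 2 • x)) = μ ^ k • fun x => f n (μ ^ 2 • x) := rfl
    rw [e1, eLpNorm_const_smul, eLpNorm_comp_smul (f n) hμ2 two_ne_zero (by simp), mul_assoc]
  simp only [e]
  have := ENNReal.Tendsto.const_mul (a := ‖μ ^ k‖ₑ * ENNReal.ofReal (((μ ^ 2) ^ 3)⁻¹) ^
    (1 / (2 : ℝ≥0∞).toReal)) h (Or.inr (ENNReal.mul_ne_top (by simp)
      (ENNReal.rpow_ne_top_of_nonneg (by positivity) ENNReal.ofReal_ne_top)))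
  simpa using this

section

variable {u : E3 → ℝ} {G : E3 → E3} {φ : ℕ → E3 → ℝ}

/-- the difference with the dilate -/
def DD (μ : ℝ) (u : E3 → ℝ) (x : E3) : ℝ := u x - μ * u (μ ^ 2 • x)

/-- the same for the gradient -/
def DG (μ : ℝ) (G : E3 → E3) (x : E3) : E3 := G x - μ ^ 3 • G (μ ^ 2 • x)

lemma aesm_comp {F : Type*} [NormedAddCommGroup F] {f : E3 → F}
    (hf : AEStronglyMeasurable f volume) {c : ℝ} (hc : 0 < c) :
    AEStronglyMeasurable (fun x => f (c • x)) volume := by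
  refine hf.comp_quasiMeasurePreserving ?_
  refine ⟨measurable_const_smul c, ?_⟩
  rw [Measure.map_addHaar_smul volume hc.ne']
  exact Measure.smul_absolutelyContinuous

lemma DD_meas (hu : AEStronglyMeasurable u volume) {μ : ℝ} (hμ : 1 ≤ μ) :
    AEStronglyMeasurable (DD μ u) volume :=
  hu.sub ((aesm_comp hu (by positivity)).const_mul μ)

lemma DG_meas (hG : AEStronglyMeasurable G volume) {μ : ℝ} (hμ : 1 ≤ μ) :
    AEStronglyMeasurable (DG μ G) volume :=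
  hG.sub ((aesm_comp hG (by positivity)).const_smul (μ ^ 3))

lemma Data.limD (h : Data u G φ) {μ : ℝ} (hμ : 1 ≤ μ) :
    Tendsto (fun n => eLpNorm (fun x => DD μ (φ n) x - DD μ u x) 2 volume) atTop (𝓝 0) := by
  have h2 := tend_dil (μ := μ) hμ 1 h.lim1
  have h3 := h.lim1.add h2
  rw [add_zero] at h3
  refine tendsto_of_tendsto_of_tendsto_of_le_of_le tendsto_const_nhds h3
    (fun _ => bot_le) fun n => ?_
  have hm : AEStronglyMeasurable (fun x => φ n x - u x) volume :=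
    (h.hφ n).continuous.aestronglyMeasurable.sub h.hu.1
  have e : (fun x => DD μ (φ n) x - DD μ u x) = (fun x => φ n x - u x) -
      fun x => μ ^ 1 • (φ n (μ ^ 2 • x) - u (μ ^ 2 • x)) := by
    funext x
    simp only [DD, Pi.sub_apply, smul_eq_mul]
    ring
  simp only [e]
  exact eLpNorm_sub_le hm ((aesm_comp hm (c := μ ^ 2) (by positivity)).const_smul (μ ^ 1))
    (by norm_num)

lemma gradient_DD {φ : E3 → ℝ} (hφ : ContDiff ℝ 1 φ) (μ : ℝ) (x : E3) :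
    gradient (DD μ φ) x = DG μ (gradient φ) x := by
  unfold DD DG
  rw [gradient_sub hφ (contDiff_dil hφ μ), gradient_dil hφ]

lemma Data.limDG (h : Data u G φ) {μ : ℝ} (hμ : 1 ≤ μ) :
    Tendsto (fun n => eLpNorm (fun x => gradient (DD μ (φ n)) x - DG μ G x) 2 volume) atTop
      (𝓝 0) := by
  have h2 := tend_dil (μ := μ) hμ 3 h.lim2
  have h3 := h.lim2.add h2
  rw [add_zero] at h3
  refine tendsto_of_tendsto_of_tendsto_of_le_of_le tendsto_const_nhds h3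
    (fun _ => bot_le) fun n => ?_
  have hm : AEStronglyMeasurable (fun x => gradient (φ n) x - G x) volume :=
    (continuous_gradient (h.hφ n)).aestronglyMeasurable.sub h.hG.1
  have e : (fun x => gradient (DD μ (φ n)) x - DG μ G x) = (fun x => gradient (φ n) x - G x) -
      fun x => μ ^ 3 • (gradient (φ n) (μ ^ 2 • x) - G (μ ^ 2 • x)) := by
    funext x
    rw [gradient_DD (h.hφ n)]
    simp only [DG, Pi.sub_apply, smul_sub]
    abel
  simp only [e]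
  exact eLpNorm_sub_le hm ((aesm_comp hm (c := μ ^ 2) (by positivity)).const_smul (μ ^ 3))
    (by norm_num)

lemma DD_contDiff {φ : E3 → ℝ} (hφ : ContDiff ℝ 1 φ) (μ : ℝ) : ContDiff ℝ 1 (DD μ φ) :=
  hφ.sub (contDiff_dil hφ μ)

lemma DD_compact {φ : E3 → ℝ} (hc : HasCompactSupport φ) {μ : ℝ} (hμ : 1 ≤ μ) :
    HasCompactSupport (DD μ φ) :=
  hc.sub (hasCompactSupport_dil hc hμ)

end

end Pool.Agent.Y309.HS
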