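import Pool.Agent.Y309.HS.Main

set_option autoImplicit false
open MeasureTheory Filter Topology Set
open scoped ENNReal NNReal

namespace Pool.Agent.Y309.HS

/-- the Sobolev inequality with constant `C` -/
def Sob (C : ℝ≥0) : Prop := ∀ φ : E3 → ℝ, ContDiff ℝ 1 φ → HasCompactSupport φ →
    eLpNorm φ 6 volume ≤ C * eLpNorm (gradient φ) 2 volume

section

variable {u : E3 → ℝ} {G : E3 → E3} {φ : ℕ → E3 → ℝ} {C : ℝ≥0}

lemma Data.u6 (h : Data u G φ) (hS : Sob C) : eLpNorm u 6 volume ≤ C * eLpNorm G 2 volume := by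
  have := (closure_bound (q := 6) (by norm_num) (w := fun _ => 1) measurable_const
    (C := C) ENNReal.coe_ne_top (sob_w hS) h.hφ h.hc h.hu.1 h.hG.1 h.lim1 h.lim2).2
  simpa using this

lemma Data.uh (h : Data u G φ) :
    eLpNorm (fun x => ‖x‖⁻¹ * u x) 2 volume ≤ 2 * eLpNorm G 2 volume :=
  (closure_bound (q := 2) (by norm_num) (w := fun x => ‖x‖⁻¹) measurable_norm.inv
    (C := 2) (by simp) har_w h.hφ h.hc h.hu.1 h.hG.1 h.lim1 h.lim2).2

lemma Data.D6 (h : Data u G φ) (hS : Sob C) {μ : ℝ} (hμ : 1 ≤ μ) :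
    (∀ n, eLpNorm (fun x => DD μ (φ n) x - DD μ u x) 6 volume ≤
      C * eLpNorm (fun x => gradient (DD μ (φ n)) x - DG μ G x) 2 volume) ∧
    eLpNorm (DD μ u) 6 volume ≤ C * eLpNorm (DG μ G) 2 volume := by
  have := (closure_bound (q := 6) (by norm_num) (w := fun _ => 1) measurable_const
    (C := C) ENNReal.coe_ne_top (sob_w hS) (fun n => DD_contDiff (h.hφ n) μ)
    (fun n => DD_compact (h.hc n) hμ) (DD_meas h.hu.1 hμ) (DG_meas h.hG.1 hμ)
    (h.limD hμ) (h.limDG hμ))
  simpa using this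

lemma Data.Dh (h : Data u G φ) {μ : ℝ} (hμ : 1 ≤ μ) :
    ∀ n, eLpNorm (fun x => ‖x‖⁻¹ * (DD μ (φ n) x - DD μ u x)) 2 volume ≤
      2 * eLpNorm (fun x => gradient (DD μ (φ n)) x - DG μ G x) 2 volume :=
  (closure_bound (q := 2) (by norm_num) (w := fun x => ‖x‖⁻¹) measurable_norm.inv
    (C := 2) (by simp) har_w (fun n => DD_contDiff (h.hφ n) μ)
    (fun n => DD_compact (h.hc n) hμ) (DD_meas h.hu.1 hμ) (DG_meas h.hG.1 hμ)
    (h.limD hμ) (h.limDG hμ)).1

lemma Data.Dh2 (h : Data u G φ) {μ : ℝ} (hμ : 1 ≤ μ) :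
    eLpNorm (fun x => ‖x‖⁻¹ * DD μ u x) 2 volume ≤
      ENNReal.ofReal (4 * (μ - 1)) * eLpNorm G 2 volume := by
  have hwm : AEStronglyMeasurable (fun x : E3 => ‖x‖⁻¹) volume :=
    measurable_norm.inv.aestronglyMeasurable
  have hb : ∀ n, eLpNorm (fun x => ‖x‖⁻¹ * DD μ u x) 2 volume ≤
      ENNReal.ofReal (4 * (μ - 1)) * (eLpNorm (fun x => gradient (φ n) x - G x) 2 volume +
        eLpNorm G 2 volume) +
      2 * eLpNorm (fun x => gradient (DD μ (φ n)) x - DG μ G x) 2 volume := by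
    intro n
    have e : (fun x => ‖x‖⁻¹ * DD μ u x) = (fun x => ‖x‖⁻¹ * DD μ (φ n) x) -
        fun x => ‖x‖⁻¹ * (DD μ (φ n) x - DD μ u x) := by
      funext x; simp only [Pi.sub_apply]; ring
    have hm1 : AEStronglyMeasurable (DD μ (φ n)) volume :=
      (DD_contDiff (h.hφ n) μ).continuous.aestronglyMeasurable
    have hm2 : AEStronglyMeasurable (fun x => DD μ (φ n) x - DD μ u x) volume :=
      hm1.sub (DD_meas h.hu.1 hμ)
    rw [e]
    have hm3 : AEStronglyMeasurable (fun x => ‖x‖⁻¹ * DD μ (φ n) x) volume := hwm.mul hm1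
    have hm4 : AEStronglyMeasurable (fun x => ‖x‖⁻¹ * (DD μ (φ n) x - DD μ u x)) volume :=
      hwm.mul hm2
    refine (eLpNorm_sub_le hm3 hm4 (by norm_num)).trans ?_
    refine add_le_add ?_ (h.Dh hμ n)
    have h1 := dil_diff (h.hφ n) (h.hc n) hμ
    have e2 : (fun x => ‖x‖⁻¹ * DD μ (φ n) x) =
        fun x => (φ n x - μ * φ n (μ ^ 2 • x)) / ‖x‖ := by
      funext x; simp only [DD]; ring
    rw [e2]
    refine h1.trans ?_
    gcongr
    have e3 : gradient (φ n) = (fun x => gradient (φ n) x - G x) + G := by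
      funext x; simp
    calc eLpNorm (gradient (φ n)) 2 volume
        = eLpNorm ((fun x => gradient (φ n) x - G x) + G) 2 volume := by rw [← e3]
      _ ≤ _ := eLpNorm_add_le
        ((continuous_gradient (h.hφ n)).aestronglyMeasurable.sub h.hG.1) h.hG.1 (by norm_num)
  have hT : Tendsto (fun n => ENNReal.ofReal (4 * (μ - 1)) *
      (eLpNorm (fun x => gradient (φ n) x - G x) 2 volume + eLpNorm G 2 volume) +
      2 * eLpNorm (fun x => gradient (DD μ (φ n)) x - DG μ G x) 2 volume) atTop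
      (𝓝 (ENNReal.ofReal (4 * (μ - 1)) * (0 + eLpNorm G 2 volume) + 2 * 0)) := by
    refine Tendsto.add ?_ (ENNReal.Tendsto.const_mul (h.limDG hμ) (Or.inr (by simp)))
    exact ENNReal.Tendsto.const_mul (h.lim2.add tendsto_const_nhds)
      (Or.inr ENNReal.ofReal_ne_top)
  rw [mul_zero, add_zero, zero_add] at hT
  exact ge_of_tendsto' hT hb

/-- integrand of the weak formulation -/
noncomputable def JJ (u : E3 → ℝ) (G F : E3 → E3) (d : E3 → ℝ) (x : E3) : ℝ :=
  inner ℝ (G x) (F x) + u x ^ 4 * d x - u x ^ 3 * (‖x‖⁻¹ * d x)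

lemma Data.sq2 (h : Data u G φ) (hS : Sob C) : MemLp (fun x => u x ^ 2) 2 volume := by
  have h6 : MemLp u 6 volume := ⟨h.hu.1, (h.u6 hS).trans_lt
    (ENNReal.mul_lt_top ENNReal.coe_lt_top h.hG.2)⟩
  have h2 := h.hu.integrable_sq
  have h6' : Integrable (fun x => ‖u x‖ ^ 6) :=
    MemLp.integrable_norm_pow (p := 6) (by exact_mod_cast h6) (by norm_num)
  have hm : AEStronglyMeasurable (fun x => u x ^ 2) volume := h.hu.1.pow 2
  rw [memLp_two_iff_integrable_sq hm]
  refine (h2.add h6').mono' ((h.hu.1.pow 2).pow 2) (Eventually.of_forall fun x => ?_)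
  have h0 := h.nn x
  simp only [Pi.add_apply, Real.norm_eq_abs]
  rw [abs_of_nonneg (by positivity), abs_of_nonneg h0]
  nlinarith [sq_nonneg (u x ^ 2 - 1), sq_nonneg (u x ^ 3), sq_nonneg (u x), sq_nonneg (u x ^ 3 - u x), sq_nonneg (u x ^2),
    mul_nonneg (sq_nonneg (u x)) (sq_nonneg (u x ^ 2 - 1))]

lemma J_meas (hu : AEStronglyMeasurable u volume) (hG : AEStronglyMeasurable G volume)
    {F : E3 → E3} {d : E3 → ℝ} (hF : AEStronglyMeasurable F volume)
    (hd : AEStronglyMeasurable d volume) : AEStronglyMeasurable (JJ u G F d) volume := by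
  have hwm : AEStronglyMeasurable (fun x : E3 => ‖x‖⁻¹) volume :=
    measurable_norm.inv.aestronglyMeasurable
  exact ((hG.inner hF).add ((hu.pow 4).mul hd)).sub ((hu.pow 3).mul (hwm.mul hd))

lemma J_bound (hu : AEStronglyMeasurable u volume) (hG : AEStronglyMeasurable G volume)
    {F : E3 → E3} {d : E3 → ℝ} (hF : AEStronglyMeasurable F volume)
    (hd : AEStronglyMeasurable d volume) :
    eLpNorm (JJ u G F d) 1 volume ≤ eLpNorm G 2 volume * eLpNorm F 2 volume +
      eLpNorm u 6 volume * eLpNorm u 6 volume * eLpNorm d 6 volume *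
        eLpNorm (fun x => u x ^ 2) 2 volume +
      eLpNorm u 6 volume * eLpNorm u 6 volume * eLpNorm u 6 volume *
        eLpNorm (fun x => ‖x‖⁻¹ * d x) 2 volume := by
  have hwm : AEStronglyMeasurable (fun x : E3 => ‖x‖⁻¹) volume :=
    measurable_norm.inv.aestronglyMeasurable
  have e : JJ u G F d = ((fun x => inner ℝ (G x) (F x)) + fun x => u x * u x * d x * u x ^ 2) -
      fun x => u x * u x * u x * (‖x‖⁻¹ * d x) := by
    funext x
    simp only [JJ, Pi.add_apply, Pi.sub_apply]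
    ring
  have m1 : AEStronglyMeasurable (fun x => inner ℝ (G x) (F x)) volume := hG.inner hF
  have m2 : AEStronglyMeasurable (fun x => u x * u x * d x * u x ^ 2) volume :=
    ((hu.mul hu).mul hd).mul (hu.pow 2)
  have m3 : AEStronglyMeasurable (fun x => u x * u x * u x * (‖x‖⁻¹ * d x)) volume :=
    ((hu.mul hu).mul hu).mul (hwm.mul hd)
  rw [e]
  refine (eLpNorm_sub_le (m1.add m2) m3 le_rfl).trans ?_
  refine add_le_add ((eLpNorm_add_le m1 m2 le_rfl).trans (add_le_add (holder_inner hG hF) ?_)) ?_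
  · exact holder4 hu hu hd (hu.pow 2)
  · exact holder4 hu hu hu (hwm.mul hd)

lemma Data.u6lt (h : Data u G φ) (hS : Sob C) : eLpNorm u 6 volume < ∞ :=
  (h.u6 hS).trans_lt (ENNReal.mul_lt_top ENNReal.coe_lt_top h.hG.2)

lemma DG_memLp (hG : MemLp G 2 volume) {μ : ℝ} (hμ : 1 ≤ μ) : MemLp (DG μ G) 2 volume := by
  have h1 : MemLp (fun x => G (μ ^ 2 • x)) 2 volume := by
    refine ⟨aesm_comp hG.1 (by positivity), ?_⟩
    rw [eLpNorm_comp_smul G (by positivity) two_ne_zero (by simp)]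
    exact ENNReal.mul_lt_top (lt_top_iff_ne_top.2 (ENNReal.rpow_ne_top_of_nonneg (by positivity)
      ENNReal.ofReal_ne_top)) hG.2
  exact hG.sub (h1.const_smul (μ ^ 3))

/-- the weak formulation tested with the difference of the solution and its dilate -/
lemma Data.test (h : Data u G φ) (hS : Sob C) {μ : ℝ} (hμ : 1 ≤ μ) :
    Integrable (JJ u G (DG μ G) (DD μ u)) ∧ ∫ x, JJ u G (DG μ G) (DD μ u) x = 0 := by
  have hu6 := h.u6lt hS
  have hsq := h.sq2 hS
  have hDGm := DG_meas h.hG.1 hμ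
  have hDDm := DD_meas h.hu.1 hμ
  have hDGf := (DG_memLp h.hG hμ).2
  have gm : ∀ n, AEStronglyMeasurable (gradient (DD μ (φ n))) volume := fun n =>
    (continuous_gradient (DD_contDiff (h.hφ n) μ)).aestronglyMeasurable
  have dm : ∀ n, AEStronglyMeasurable (DD μ (φ n)) volume := fun n =>
    (DD_contDiff (h.hφ n) μ).continuous.aestronglyMeasurable
  -- the limit integrand is integrable
  have hI : Integrable (JJ u G (DG μ G) (DD μ u)) := by
    rw [← memLp_one_iff_integrable]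
    refine ⟨J_meas h.hu.1 h.hG.1 hDGm hDDm, (J_bound h.hu.1 h.hG.1 hDGm hDDm).trans_lt ?_⟩
    refine ENNReal.add_lt_top.2 ⟨ENNReal.add_lt_top.2 ⟨ENNReal.mul_lt_top h.hG.2 hDGf, ?_⟩, ?_⟩
    · exact ENNReal.mul_lt_top (ENNReal.mul_lt_top (ENNReal.mul_lt_top hu6 hu6)
        (((h.D6 hS hμ).2).trans_lt (ENNReal.mul_lt_top ENNReal.coe_lt_top hDGf))) hsq.2
    · exact ENNReal.mul_lt_top (ENNReal.mul_lt_top (ENNReal.mul_lt_top hu6 hu6) hu6)
        ((h.Dh2 hμ).trans_lt (ENNReal.mul_lt_top ENNReal.ofReal_lt_top h.hG.2))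
  refine ⟨hI, ?_⟩
  -- the L¹ convergence
  have hdiff : ∀ n, eLpNorm (JJ u G (gradient (DD μ (φ n))) (DD μ (φ n)) -
      JJ u G (DG μ G) (DD μ u)) 1 volume ≤
      (eLpNorm G 2 volume + eLpNorm u 6 volume * eLpNorm u 6 volume * C *
        eLpNorm (fun x => u x ^ 2) 2 volume +
      eLpNorm u 6 volume * eLpNorm u 6 volume * eLpNorm u 6 volume * 2) *
        eLpNorm (fun x => gradient (DD μ (φ n)) x - DG μ G x) 2 volume := by
    intro n
    have e : JJ u G (gradient (DD μ (φ n))) (DD μ (φ n)) - JJ u G (DG μ G) (DD μ u) =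
        JJ u G (fun x => gradient (DD μ (φ n)) x - DG μ G x)
          (fun x => DD μ (φ n) x - DD μ u x) := by
      funext x
      simp only [JJ, Pi.sub_apply, inner_sub_right]
      ring
    rw [e]
    have m1 : AEStronglyMeasurable (fun x => gradient (DD μ (φ n)) x - DG μ G x) volume :=
      (gm n).sub hDGm
    have m2 : AEStronglyMeasurable (fun x => DD μ (φ n) x - DD μ u x) volume := (dm n).sub hDDm
    refine (J_bound h.hu.1 h.hG.1 m1 m2).trans ?_
    have h1 := (h.D6 hS hμ).1 n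
    have h2 := h.Dh hμ n
    calc _ ≤ eLpNorm G 2 volume * eLpNorm (fun x => gradient (DD μ (φ n)) x - DG μ G x) 2 volume +
      eLpNorm u 6 volume * eLpNorm u 6 volume *
        (C * eLpNorm (fun x => gradient (DD μ (φ n)) x - DG μ G x) 2 volume) *
        eLpNorm (fun x => u x ^ 2) 2 volume +
      eLpNorm u 6 volume * eLpNorm u 6 volume * eLpNorm u 6 volume *
        (2 * eLpNorm (fun x => gradient (DD μ (φ n)) x - DG μ G x) 2 volume) := by gcongr
      _ = _ := by ring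
  have hKf : (eLpNorm G 2 volume + eLpNorm u 6 volume * eLpNorm u 6 volume * C *
        eLpNorm (fun x => u x ^ 2) 2 volume +
      eLpNorm u 6 volume * eLpNorm u 6 volume * eLpNorm u 6 volume * 2) ≠ ∞ := by
    refine (ENNReal.add_lt_top.2 ⟨ENNReal.add_lt_top.2 ⟨h.hG.2, ?_⟩, ?_⟩).ne
    · exact ENNReal.mul_lt_top (ENNReal.mul_lt_top (ENNReal.mul_lt_top hu6 hu6)
        ENNReal.coe_lt_top) hsq.2
    · exact ENNReal.mul_lt_top (ENNReal.mul_lt_top (ENNReal.mul_lt_top hu6 hu6) hu6) (by simp)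
  have hT : Tendsto (fun n => (eLpNorm G 2 volume + eLpNorm u 6 volume * eLpNorm u 6 volume * C *
        eLpNorm (fun x => u x ^ 2) 2 volume +
      eLpNorm u 6 volume * eLpNorm u 6 volume * eLpNorm u 6 volume * 2) *
        eLpNorm (fun x => gradient (DD μ (φ n)) x - DG μ G x) 2 volume) atTop (𝓝 0) := by
    have := ENNReal.Tendsto.const_mul (h.limDG hμ) (Or.inr hKf)
    simpa using this
  have hL1 : Tendsto (fun n => eLpNorm (JJ u G (gradient (DD μ (φ n))) (DD μ (φ n)) -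
      JJ u G (DG μ G) (DD μ u)) 1 volume) atTop (𝓝 0) :=
    tendsto_of_tendsto_of_tendsto_of_le_of_le tendsto_const_nhds hT (fun _ => bot_le) hdiff
  have hint : ∀ n, Integrable (JJ u G (gradient (DD μ (φ n))) (DD μ (φ n))) := by
    intro n
    have h1 : MemLp (JJ u G (gradient (DD μ (φ n))) (DD μ (φ n)) -
      JJ u G (DG μ G) (DD μ u)) 1 volume := by
      refine ⟨(J_meas h.hu.1 h.hG.1 (gm n) (dm n)).sub hI.1, (hdiff n).trans_lt ?_⟩
      refine ENNReal.mul_lt_top (lt_top_iff_ne_top.2 hKf) ?_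
      have h2 : MemLp (gradient (DD μ (φ n))) 2 volume :=
        (continuous_gradient (DD_contDiff (h.hφ n) μ)).memLp_of_hasCompactSupport
          (hasCompactSupport_gradient (DD_compact (h.hc n) hμ))
      exact (h2.sub (DG_memLp h.hG hμ)).2
    have h2 := (memLp_one_iff_integrable.1 h1).add hI
    simpa using h2
  have hlim := tendsto_integral_of_L1' (μ := (volume : Measure E3))
    (JJ u G (DG μ G) (DD μ u)) hI.1
    (Eventually.of_forall hint) hL1
  have hz : ∀ n, ∫ x, JJ u G (gradient (DD μ (φ n))) (DD μ (φ n)) x = 0 := by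
    intro n
    rw [← h.weak n μ hμ]
    refine integral_congr_ae (Eventually.of_forall fun x => ?_)
    simp only [JJ, gradient_DD (h.hφ n)]
    simp only [DD, DG]
    ring
  simp only [hz] at hlim
  exact (tendsto_nhds_unique hlim tendsto_const_nhds)

end

end Pool.Agent.Y309.HS
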