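import Pool.Agent.Y309.HS.Main2

set_option autoImplicit false
open MeasureTheory Filter Topology Set
open scoped ENNReal NNReal

namespace Pool.Agent.Y309.HS

section

variable {u : E3 → ℝ} {G : E3 → E3} {φ : ℕ → E3 → ℝ} {C : ℝ≥0}

/-- the dilate -/
def TT (μ : ℝ) (u : E3 → ℝ) (x : E3) : ℝ := μ * u (μ ^ 2 • x)

/-- the dilate, for the gradient -/
def TG (μ : ℝ) (G : E3 → E3) (x : E3) : E3 := μ ^ 3 • G (μ ^ 2 • x)

lemma TT_meas (hu : AEStronglyMeasurable u volume) {μ : ℝ} (hμ : 1 ≤ μ) :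
    AEStronglyMeasurable (TT μ u) volume :=
  (aesm_comp hu (by positivity)).const_mul μ

lemma scale_int (f : E3 → ℝ) {μ : ℝ} (hμ : 1 ≤ μ) :
    ∫ x, f (μ ^ 2 • x) = (μ ^ 6)⁻¹ * ∫ x, f x := by
  rw [Measure.integral_comp_smul, fr3, abs_of_pos (by positivity), smul_eq_mul]
  congr 2
  ring

lemma scale_integrable {f : E3 → ℝ} (hf : Integrable f) {μ : ℝ} (hμ : 1 ≤ μ) :
    Integrable (fun x => f (μ ^ 2 • x)) := by
  rw [integrable_comp_smul_iff volume f (by positivity)]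
  exact hf

lemma eLpNorm_TT {μ : ℝ} (hμ : 1 ≤ μ) (u : E3 → ℝ) :
    eLpNorm (TT μ u) 6 volume = eLpNorm u 6 volume := by
  have e : TT μ u = μ • fun x => u (μ ^ 2 • x) := rfl
  have hμ0 : 0 < μ := by linarith
  rw [e, eLpNorm_const_smul, eLpNorm_comp_smul u (c := μ ^ 2) (by positivity) (by norm_num)
    (by simp), ← mul_assoc]
  have h1 : ‖μ‖ₑ * ENNReal.ofReal (((μ ^ 2) ^ 3)⁻¹) ^ (1 / (6 : ℝ≥0∞).toReal) = 1 := by
    rw [Real.enorm_eq_ofReal hμ0.le, ENNReal.ofReal_rpow_of_pos (by positivity),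
      ← ENNReal.ofReal_mul hμ0.le]
    have h2 : ((((μ ^ 2) ^ 3)⁻¹ : ℝ)) ^ (1 / (6 : ℝ≥0∞).toReal) = μ⁻¹ := by
      have h3 : (1 / (6 : ℝ≥0∞).toReal) = ((6 : ℕ) : ℝ)⁻¹ := by simp
      rw [h3, show ((μ ^ 2) ^ 3)⁻¹ = (μ⁻¹) ^ 6 by rw [inv_pow]; congr 1; ring]
      exact Real.pow_rpow_inv_natCast (by positivity) (by norm_num)
    rw [h2, mul_inv_cancel₀ hμ0.ne']
    simp
  rw [h1, one_mul]

lemma TT_nonneg (h : Data u G φ) {μ : ℝ} (hμ : 1 ≤ μ) (x : E3) : 0 ≤ TT μ u x :=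
  mul_nonneg (by linarith) (h.nn _)

lemma Data.int6 (h : Data u G φ) (hS : Sob C) : Integrable (fun x => u x ^ 6) := by
  have h6 : MemLp u 6 volume := ⟨h.hu.1, h.u6lt hS⟩
  have h6' : Integrable (fun x => ‖u x‖ ^ 6) :=
    MemLp.integrable_norm_pow (p := 6) (by exact_mod_cast h6) (by norm_num)
  refine h6'.congr (Eventually.of_forall fun x => ?_)
  simp only [Real.norm_eq_abs]
  rw [abs_of_nonneg (h.nn x)]

lemma Data.int5 (h : Data u G φ) (hS : Sob C) : Integrable (fun x => u x ^ 5) := by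
  have h2 := h.hu.integrable_sq
  refine (h2.add (h.int6 hS)).mono' (h.hu.1.pow 5) (Eventually.of_forall fun x => ?_)
  have h0 := h.nn x
  simp only [Pi.add_apply, Real.norm_eq_abs]
  rw [abs_of_nonneg (by positivity)]
  have h1 : 0 ≤ u x ^ 2 * (1 - u x ^ 3 + u x ^ 4) := by
    refine mul_nonneg (sq_nonneg _) ?_
    rcases le_total (u x) 1 with h3 | h3
    · have h4 : u x ^ 3 ≤ 1 := pow_le_one₀ h0 h3
      have h5 : 0 ≤ u x ^ 4 := by positivity
      linarith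
    · have := pow_le_pow_right₀ h3 (show 3 ≤ 4 by norm_num)
      linarith
  linarith [show u x ^ 2 * (1 - u x ^ 3 + u x ^ 4) = u x ^ 2 - u x ^ 5 + u x ^ 6 by ring]


lemma Data.int4 (h : Data u G φ) (hS : Sob C) : Integrable (fun x => ‖x‖⁻¹ * u x ^ 4) := by
  have hwm : AEStronglyMeasurable (fun x : E3 => ‖x‖⁻¹) volume :=
    measurable_norm.inv.aestronglyMeasurable
  have hm : AEStronglyMeasurable (fun x => ‖x‖⁻¹ * u x) volume := hwm.mul h.hu.1
  have hu6 := h.u6lt hS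
  have h1 := holder4 h.hu.1 h.hu.1 h.hu.1 hm
  have h2 : MemLp (fun x => u x * u x * u x * (‖x‖⁻¹ * u x)) 1 volume := by
    refine ⟨((h.hu.1.mul h.hu.1).mul h.hu.1).mul hm, h1.trans_lt ?_⟩
    exact ENNReal.mul_lt_top (ENNReal.mul_lt_top (ENNReal.mul_lt_top hu6 hu6) hu6)
      (h.uh.trans_lt (ENNReal.mul_lt_top (by simp) h.hG.2))
  refine (memLp_one_iff_integrable.1 h2).congr (Eventually.of_forall fun x => ?_)
  simp only []
  ring

/-- A bound for the integral of a product of four functions. -/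
lemma holder4_integral {a b c d : E3 → ℝ} (ha : AEStronglyMeasurable a volume)
    (hb : AEStronglyMeasurable b volume) (hc : AEStronglyMeasurable c volume)
    (hd : AEStronglyMeasurable d volume) (fa : eLpNorm a 6 volume < ∞)
    (fb : eLpNorm b 6 volume < ∞) (fc : eLpNorm c 6 volume < ∞) (fd : eLpNorm d 2 volume < ∞) :
    Integrable (fun x => a x * b x * c x * d x) ∧
    ∫ x, a x * b x * c x * d x ≤ (eLpNorm a 6 volume).toReal * (eLpNorm b 6 volume).toReal *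
      (eLpNorm c 6 volume).toReal * (eLpNorm d 2 volume).toReal := by
  have h1 := holder4 ha hb hc hd
  have hf : eLpNorm a 6 volume * eLpNorm b 6 volume * eLpNorm c 6 volume * eLpNorm d 2 volume
      < ∞ := ENNReal.mul_lt_top (ENNReal.mul_lt_top (ENNReal.mul_lt_top fa fb) fc) fd
  have h2 : MemLp (fun x => a x * b x * c x * d x) 1 volume :=
    ⟨((ha.mul hb).mul hc).mul hd, h1.trans_lt hf⟩
  have h3 := memLp_one_iff_integrable.1 h2
  refine ⟨h3, ?_⟩
  calc ∫ x, a x * b x * c x * d x ≤ ∫ x, ‖a x * b x * c x * d x‖ :=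
        integral_mono h3 h3.norm fun x => Real.le_norm_self _
    _ = (eLpNorm (fun x => a x * b x * c x * d x) 1 volume).toReal := by
        rw [eLpNorm_one_eq_lintegral_enorm, integral_norm_eq_lintegral_enorm h3.1]
    _ ≤ _ := by
        rw [← ENNReal.toReal_mul, ← ENNReal.toReal_mul, ← ENNReal.toReal_mul]
        exact ENNReal.toReal_mono hf.ne h1

lemma integral_norm_sq {F : E3 → E3} (hF : MemLp F 2 volume) :
    ∫ x, ‖F x‖ ^ 2 = (eLpNorm F 2 volume).toReal ^ 2 := by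
  have h1 : Integrable (fun x => ‖F x‖ ^ 2) := (memLp_two_iff_integrable_sq_norm hF.1).1 hF
  rw [← ENNReal.toReal_pow, eLpNorm_two_sq,
    ← ofReal_integral_eq_lintegral_ofReal h1 (Eventually.of_forall fun x => by positivity),
    ENNReal.toReal_ofReal (integral_nonneg fun x => by positivity)]

lemma pointwise {a v w : ℝ} (ha : 0 ≤ a) (hv : 0 ≤ v) (hw : 0 ≤ w) (g k : E3) :
    (1 / 2) * ‖g - k‖ ^ 2 + (1 / 2) * (‖g‖ ^ 2 - ‖k‖ ^ 2) + (1 / 5) * (a ^ 5 - v ^ 5) -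
      (1 / 4) * (w * a ^ 4 - w * v ^ 4) - a * a * (a - v) * (w * (a - v)) -
      v * v * (a - v) * (w * (a - v)) ≤
    inner ℝ g (g - k) + a ^ 4 * (a - v) - a ^ 3 * (w * (a - v)) := by
  have h1 : inner ℝ g (g - k) = (1 / 2) * ‖g - k‖ ^ 2 + (1 / 2) * (‖g‖ ^ 2 - ‖k‖ ^ 2) := by
    rw [inner_sub_right, real_inner_self_eq_norm_sq, @norm_sub_sq_real]
    ring
  have h2 : 0 ≤ (a - v) ^ 2 * (4 * a ^ 3 + 3 * a ^ 2 * v + 2 * a * v ^ 2 + v ^ 3) := by
    positivity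
  have h3 : 0 ≤ w * ((a - v) ^ 2 * (a - v) ^ 2 + 2 * (a - v) ^ 2 * v ^ 2) := by positivity
  rw [h1]
  nlinarith

end

end Pool.Agent.Y309.HS
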