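import Pool.Agent.Y309.HS.Main3

set_option autoImplicit false
open MeasureTheory Filter Topology Set
open scoped ENNReal NNReal

namespace Pool.Agent.Y309.HS

section

variable {u : E3 → ℝ} {G : E3 → E3} {φ : ℕ → E3 → ℝ} {C : ℝ≥0}

lemma lin9 {f1 f2 f3 f4 f5 f6 f7 f8 f9 : E3 → ℝ} (i1 : Integrable f1) (i2 : Integrable f2)
    (i3 : Integrable f3) (i4 : Integrable f4) (i5 : Integrable f5) (i6 : Integrable f6)
    (i7 : Integrable f7) (i8 : Integrable f8) (i9 : Integrable f9) :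
    Integrable (fun x => (1 / 2) * f1 x + (1 / 2) * (f2 x - f3 x) + (1 / 5) * (f4 x - f5 x) -
      (1 / 4) * (f6 x - f7 x) - f8 x - f9 x) ∧
    ∫ x, ((1 / 2) * f1 x + (1 / 2) * (f2 x - f3 x) + (1 / 5) * (f4 x - f5 x) -
      (1 / 4) * (f6 x - f7 x) - f8 x - f9 x) = (1 / 2) * (∫ x, f1 x) +
      (1 / 2) * ((∫ x, f2 x) - ∫ x, f3 x) + (1 / 5) * ((∫ x, f4 x) - ∫ x, f5 x) -
      (1 / 4) * ((∫ x, f6 x) - ∫ x, f7 x) - (∫ x, f8 x) - ∫ x, f9 x := by
  have j1 : Integrable (fun x => (1 / 2) * f1 x) := i1.const_mul _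
  have j2 : Integrable (fun x => (1 / 2) * (f2 x - f3 x)) := (i2.sub i3).const_mul _
  have j3 : Integrable (fun x => (1 / 5) * (f4 x - f5 x)) := (i4.sub i5).const_mul _
  have j4 : Integrable (fun x => (1 / 4) * (f6 x - f7 x)) := (i6.sub i7).const_mul _
  have j12 : Integrable (fun x => (1 / 2) * f1 x + (1 / 2) * (f2 x - f3 x)) := j1.add j2
  have j13 : Integrable (fun x => (1 / 2) * f1 x + (1 / 2) * (f2 x - f3 x) +
    (1 / 5) * (f4 x - f5 x)) := j12.add j3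
  have j14 : Integrable (fun x => (1 / 2) * f1 x + (1 / 2) * (f2 x - f3 x) +
    (1 / 5) * (f4 x - f5 x) - (1 / 4) * (f6 x - f7 x)) := j13.sub j4
  have j18 : Integrable (fun x => (1 / 2) * f1 x + (1 / 2) * (f2 x - f3 x) +
    (1 / 5) * (f4 x - f5 x) - (1 / 4) * (f6 x - f7 x) - f8 x) := j14.sub i8
  refine ⟨j18.sub i9, ?_⟩
  rw [integral_sub j18 i9, integral_sub j14 i8, integral_sub j13 j4, integral_add j12 j3,
    integral_add j1 j2, integral_const_mul, integral_const_mul, integral_const_mul,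
    integral_const_mul, integral_sub i2 i3, integral_sub i4 i5, integral_sub i6 i7]

/-- the main inequality -/
lemma Data.main (h : Data u G φ) (hS : Sob C) {μ : ℝ} (hμ : 1 ≤ μ) :
    (1 / 2) * (eLpNorm (DG μ G) 2 volume).toReal ^ 2 +
      (1 / 5) * (1 - μ⁻¹) * ∫ x, u x ^ 5 ≤
    8 * (eLpNorm u 6 volume).toReal ^ 2 * C * (eLpNorm G 2 volume).toReal * (μ - 1) *
      (eLpNorm (DG μ G) 2 volume).toReal := by
  have hμ0 : 0 < μ := by linarith
  obtain ⟨hI, hz⟩ := h.test hS hμ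
  have hu6 := h.u6lt hS
  have hT6 : eLpNorm (TT μ u) 6 volume < ∞ := by rw [eLpNorm_TT hμ]; exact hu6
  have hTm := TT_meas h.hu.1 hμ
  have hDm := DD_meas h.hu.1 hμ
  have hDGf := DG_memLp h.hG hμ
  have hD6 := (h.D6 hS hμ).2
  have hD6f : eLpNorm (DD μ u) 6 volume < ∞ :=
    hD6.trans_lt (ENNReal.mul_lt_top ENNReal.coe_lt_top hDGf.2)
  have hDh := h.Dh2 hμ
  have hDhf : eLpNorm (fun x => ‖x‖⁻¹ * DD μ u x) 2 volume < ∞ :=
    hDh.trans_lt (ENNReal.mul_lt_top ENNReal.ofReal_lt_top h.hG.2)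
  have hwm : AEStronglyMeasurable (fun x : E3 => ‖x‖⁻¹) volume :=
    measurable_norm.inv.aestronglyMeasurable
  have hwDm : AEStronglyMeasurable (fun x => ‖x‖⁻¹ * DD μ u x) volume := hwm.mul hDm
  -- real versions of the bounds
  have hD6' : (eLpNorm (DD μ u) 6 volume).toReal ≤ C * (eLpNorm (DG μ G) 2 volume).toReal := by
    have := ENNReal.toReal_mono (ENNReal.mul_lt_top ENNReal.coe_lt_top hDGf.2).ne hD6
    rwa [ENNReal.toReal_mul, ENNReal.coe_toReal] at this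
  have hDh' : (eLpNorm (fun x => ‖x‖⁻¹ * DD μ u x) 2 volume).toReal ≤
      4 * (μ - 1) * (eLpNorm G 2 volume).toReal := by
    have := ENNReal.toReal_mono (ENNReal.mul_lt_top ENNReal.ofReal_lt_top h.hG.2).ne hDh
    rwa [ENNReal.toReal_mul, ENNReal.toReal_ofReal (by nlinarith)] at this
  -- the integrals
  have i1 : Integrable (fun x => ‖DG μ G x‖ ^ 2) := (memLp_two_iff_integrable_sq_norm hDGf.1).1 hDGf
  have i2 : Integrable (fun x => ‖G x‖ ^ 2) := (memLp_two_iff_integrable_sq_norm h.hG.1).1 h.hG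
  have e3 : ∀ x, ‖TG μ G x‖ ^ 2 = μ ^ 6 * (fun y => ‖G y‖ ^ 2) (μ ^ 2 • x) := by
    intro x
    simp only [TG, norm_smul, Real.norm_eq_abs, abs_of_pos (pow_pos hμ0 3)]
    ring
  have i3 : Integrable (fun x => ‖TG μ G x‖ ^ 2) := by
    simp only [e3]
    exact (scale_integrable i2 hμ).const_mul _
  have v3 : ∫ x, ‖TG μ G x‖ ^ 2 = ∫ x, ‖G x‖ ^ 2 := by
    simp only [e3]
    rw [integral_const_mul, scale_int (fun y => ‖G y‖ ^ 2) hμ]
    field_simp
  have i4 := h.int5 hS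
  have e5 : ∀ x, TT μ u x ^ 5 = μ ^ 5 * (fun y => u y ^ 5) (μ ^ 2 • x) := by
    intro x
    simp only [TT]
    ring
  have i5 : Integrable (fun x => TT μ u x ^ 5) := by
    simp only [e5]
    exact (scale_integrable i4 hμ).const_mul _
  have v5 : ∫ x, TT μ u x ^ 5 = μ⁻¹ * ∫ x, u x ^ 5 := by
    simp only [e5]
    rw [integral_const_mul, scale_int (fun y => u y ^ 5) hμ]
    field_simp
  have i6 := h.int4 hS
  have e7 : ∀ x, ‖x‖⁻¹ * TT μ u x ^ 4 = μ ^ 6 * (fun y => ‖y‖⁻¹ * u y ^ 4) (μ ^ 2 • x) := by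
    intro x
    simp only [TT, norm_smul, Real.norm_eq_abs, abs_of_pos (pow_pos hμ0 2)]
    rw [mul_inv]
    field_simp
  have i7 : Integrable (fun x => ‖x‖⁻¹ * TT μ u x ^ 4) := by
    simp only [e7]
    exact (scale_integrable i6 hμ).const_mul _
  have v7 : ∫ x, ‖x‖⁻¹ * TT μ u x ^ 4 = ∫ x, ‖x‖⁻¹ * u x ^ 4 := by
    simp only [e7]
    rw [integral_const_mul, scale_int (fun y => ‖y‖⁻¹ * u y ^ 4) hμ]
    field_simp
  obtain ⟨i8, b8⟩ := holder4_integral h.hu.1 h.hu.1 hDm hwDm hu6 hu6 hD6f hDhf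
  obtain ⟨i9, b9⟩ := holder4_integral hTm hTm hDm hwDm hT6 hT6 hD6f hDhf
  rw [eLpNorm_TT hμ] at b9
  -- the pointwise inequality
  have hp : ∀ x, (1 / 2) * ‖DG μ G x‖ ^ 2 + (1 / 2) * (‖G x‖ ^ 2 - ‖TG μ G x‖ ^ 2) +
      (1 / 5) * (u x ^ 5 - TT μ u x ^ 5) -
      (1 / 4) * (‖x‖⁻¹ * u x ^ 4 - ‖x‖⁻¹ * TT μ u x ^ 4) -
      u x * u x * DD μ u x * (‖x‖⁻¹ * DD μ u x) -
      TT μ u x * TT μ u x * DD μ u x * (‖x‖⁻¹ * DD μ u x) ≤ JJ u G (DG μ G) (DD μ u) x := by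
    intro x
    exact pointwise (h.nn x) (TT_nonneg h hμ x) (inv_nonneg.2 (norm_nonneg x)) (G x) (TG μ G x)
  obtain ⟨hLi, hLe⟩ := lin9 i1 i2 i3 i4 i5 i6 i7 i8 i9
  have hint := integral_mono hLi hI hp
  rw [hz, hLe, v3, v5, v7, integral_norm_sq hDGf] at hint
  set δ := (eLpNorm (DG μ G) 2 volume).toReal with hδ
  set a := (eLpNorm u 6 volume).toReal with ha
  set g := (eLpNorm G 2 volume).toReal with hg
  have ha0 : 0 ≤ a := ENNReal.toReal_nonneg
  have hδ0 : 0 ≤ δ := ENNReal.toReal_nonneg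
  have hg0 : 0 ≤ g := ENNReal.toReal_nonneg
  have hb : a * a * (eLpNorm (DD μ u) 6 volume).toReal *
      (eLpNorm (fun x => ‖x‖⁻¹ * DD μ u x) 2 volume).toReal ≤
      a * a * (C * δ) * (4 * (μ - 1) * g) := by
    have hμ1 : 0 ≤ μ - 1 := by linarith
    gcongr
  have hb8 := b8.trans hb
  have hb9 := b9.trans hb
  have e : 8 * a ^ 2 * C * g * (μ - 1) * δ = a * a * (C * δ) * (4 * (μ - 1) * g) +
      a * a * (C * δ) * (4 * (μ - 1) * g) := by ring
  rw [e]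
  linarith

/-- `K = 0` -/
lemma Data.K_le (h : Data u G φ) (hS : Sob C) : ∫ x, u x ^ 5 ≤ 0 := by
  set K := ∫ x, u x ^ 5 with hK
  set B := 8 * (eLpNorm u 6 volume).toReal ^ 2 * C * (eLpNorm G 2 volume).toReal with hB
  have hB0 : 0 ≤ B := by positivity
  have key : ∀ t : ℝ, 0 < t → K ≤ (5 / 2) * B ^ 2 * (1 + t) * t := by
    intro t ht
    have h1 := h.main hS (μ := 1 + t) (by linarith)
    rw [← hK] at h1
    set δ := (eLpNorm (DG (1 + t) G) 2 volume).toReal with hδ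
    have h2 : (1 / 5) * (1 - (1 + t)⁻¹) * K ≤ (1 / 2) * (B * t) ^ 2 := by
      have e : 8 * (eLpNorm u 6 volume).toReal ^ 2 * C * (eLpNorm G 2 volume).toReal *
          (1 + t - 1) * δ = B * t * δ := by rw [hB]; ring
      rw [e] at h1
      nlinarith [sq_nonneg (δ - B * t)]
    have h3 : (1 - (1 + t)⁻¹) = t / (1 + t) := by field_simp; ring
    rw [h3] at h2
    have h4 : 0 < t / (1 + t) := by positivity
    have h5 : t / (1 + t) * K ≤ t / (1 + t) * ((5 / 2) * B ^ 2 * (1 + t) * t) := by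
      have e : t / (1 + t) * ((5 / 2) * B ^ 2 * (1 + t) * t) = (5 / 2) * (B * t) ^ 2 := by
        field_simp
      rw [e]
      linarith
    exact le_of_mul_le_mul_left h5 h4
  have hT : Tendsto (fun t : ℝ => (5 / 2) * B ^ 2 * (1 + t) * t) (𝓝[>] 0) (𝓝 0) := by
    have : Tendsto (fun t : ℝ => (5 / 2) * B ^ 2 * (1 + t) * t) (𝓝 0)
        (𝓝 ((5 / 2) * B ^ 2 * (1 + 0) * 0)) := by
      apply Continuous.tendsto
      fun_prop
    rw [mul_zero] at this
    exact this.mono_left nhdsWithin_le_nhds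
  exact ge_of_tendsto hT (eventually_mem_nhdsWithin.mono key)

end

end Pool.Agent.Y309.HS
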